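import Pool.Agent.H52.ZF.ESD
import Pool.Agent.H20.LX.T2

/-!
Page lx, row EDU: the elementary symmetric sum as a Dirichlet polynomial.
-/

set_option autoImplicit false

namespace Pool.Agent.H52.LX

open Pool.Agent.H27.ZF Pool.Agent.H20.LX

/-- the statement without the definitions of the page -/
theorem edu {m : ℕ} {lam : ℕ → ℂ} {q : ℕ → ℕ → ℂ} (hE : Eul m lam q) (z0 z : ℝ) (j l : ℕ) (s : ℂ) :
    ∑ S ∈ Finset.powersetCard l (UP z0 z j), ∏ p ∈ S, (lam p * (p : ℂ) ^ (-s)) =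
      ∑ n ∈ Finset.Icc 1 (2 ^ (j * l)), bb (UP z0 z j) 1 l n * lam n * (n : ℂ) ^ (-s) := by
  classical
  set U := UP z0 z j with hU
  have hUp : ∀ p ∈ U, p.Prime ∧ p ≤ 2 ^ j := by
    intro p hp
    rw [hU, UP, Finset.mem_filter, Finset.mem_Ioc] at hp
    exact ⟨hp.2.1, hp.1.2⟩
  have hSp : ∀ S ∈ Finset.powersetCard l U, S.card = l ∧ ∀ p ∈ S, p.Prime ∧ p ≤ 2 ^ j := by
    intro S hS
    rw [Finset.mem_powersetCard] at hS
    exact ⟨hS.2, fun p hp => hUp p (hS.1 hp)⟩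
  have hsub : (Finset.powersetCard l U).image (fun S => ∏ p ∈ S, p ^ 1) ⊆
      Finset.Icc 1 (2 ^ (j * l)) := by
    intro n hn
    obtain ⟨S, hS, rfl⟩ := Finset.mem_image.mp hn
    obtain ⟨hc, hp⟩ := hSp S hS
    rw [Finset.mem_Icc]
    constructor
    · refine Finset.one_le_prod' fun p h => ?_
      exact Nat.one_le_pow _ _ (hp p h).1.pos
    · have h1 := Pool.Agent.H52.ZF.prod_hi (k := 1) hc fun p h => (hp p h).2
      rw [mul_one] at h1
      exact h1
  rw [← Finset.sum_subset hsub]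
  · rw [Finset.sum_image]
    · refine Finset.sum_congr rfl fun S hS => ?_
      have h1 := Pool.Agent.H52.ZF.lam_prod hE 1 s S fun p hp => ((hSp S hS).2 p hp).1
      have h2 : ∏ p ∈ S, (lam (p ^ 1) * (p : ℂ) ^ (-(((1 : ℕ) : ℂ) * s))) =
          ∏ p ∈ S, (lam p * (p : ℂ) ^ (-s)) := by
        refine Finset.prod_congr rfl fun p _ => ?_
        rw [pow_one, Nat.cast_one, one_mul]
      rw [← h2, ← h1]
      have hb : bb U 1 l (∏ p ∈ S, p ^ 1) = 1 := by
        unfold bb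
        exact if_pos ⟨S, hS, rfl⟩
      rw [hb, one_mul]
    · intro S hS T hT h
      exact Pool.Agent.H52.ZF.prod_inj le_rfl (fun p hp => ((hSp S hS).2 p hp).1)
        (fun p hp => ((hSp T hT).2 p hp).1) h
  · intro n _ hn
    have hb : bb U 1 l n = 0 := by
      unfold bb
      refine if_neg ?_
      rintro ⟨S, hS, rfl⟩
      exact hn (Finset.mem_image_of_mem _ hS)
    rw [hb, zero_mul, zero_mul]

theorem pf_EDU : T_EDU := by
  intro m lam q hE z0 z j l _ _ s
  exact edu hE z0 z j l s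

end Pool.Agent.H52.LX
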